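import Mathlib
import Pool.Agent.TH881.RQ.Uni5
import Pool.Agent.TH881.RQ.Sq

/-! Primes of the form `N - G(p)`, the prime `p` in an arbitrary set of primes, for almost all `N`:
the number of such `p` is governed by finitely many congruences. -/

set_option autoImplicit false

namespace Pool.Agent.Results.MP_0bf1d2_nt.ArbitrarySetsOfPrimes
open Finset Polynomial

open Classical in
/-- The number of the primes `p ≤ x` in `S` for which `N - G(p)` is a (positive) prime. -/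
noncomputable def primeCount (G : ℤ[X]) (S : Set ℕ) (N x : ℕ) : ℕ :=
  ((Icc 1 x).filter (fun p : ℕ => p.Prime ∧ p ∈ S ∧ ((N : ℤ) - G.eval (p : ℤ)).toNat.Prime)).card

open Classical in
/-- The number of the primes `p ≤ x` in `S` for which `N - G(p)` is positive and not divisible by any
prime `q ≤ w`. -/
noncomputable def sievedCount (G : ℤ[X]) (S : Set ℕ) (N x w : ℕ) : ℕ :=
  ((Icc 1 x).filter (fun p : ℕ => p.Prime ∧ p ∈ S ∧ 0 < (N : ℤ) - G.eval (p : ℤ) ∧
    ∀ q : ℕ, q.Prime → q ≤ w → ¬ (q : ℤ) ∣ (N : ℤ) - G.eval (p : ℤ))).card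

/-- The product of `1 - 1 / q` over the primes `q ≤ w`. -/
noncomputable def V (w : ℕ) : ℝ := ∏ q ∈ (Icc 1 w).filter Nat.Prime, (1 - 1 / (q : ℝ))

open Pool.Agent.TH881 Pool.Agent.TH881.RQ in
lemma primeCount_eq (G : ℤ[X]) (S : Set ℕ) (N x : ℕ) [DecidablePred (fun n : ℕ => ((N : ℤ) + (-1) * G.eval (n : ℤ)).toNat.Prime)] :
    ((KS true S x).filter (fun n : ℕ => ((N : ℤ) + (-1) * G.eval (n : ℤ)).toNat.Prime)).card = primeCount G S N x := by
  classical
  unfold primeCount KS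
  congr 1
  ext n
  rw [mem_filter, mem_filter, mem_filter]
  have h : (N : ℤ) + (-1) * G.eval (n : ℤ) = (N : ℤ) - G.eval (n : ℤ) := by ring
  rw [h]
  constructor
  · rintro ⟨⟨h1, h2, h3⟩, h4⟩
    exact ⟨h1, h2 rfl, h3, h4⟩
  · rintro ⟨h1, h2, h3, h4⟩
    exact ⟨⟨h1, fun _ => h2, h3⟩, h4⟩

open Pool.Agent.TH881 Pool.Agent.TH881.RQ in
lemma sievedCount_eq (G : ℤ[X]) (S : Set ℕ) (N x w : ℕ)
    [DecidablePred (fun n : ℕ => 0 < (N : ℤ) + (-1) * G.eval (n : ℤ) ∧ gd G (-1) w (N : ZMod (Wp w)) (n : ZMod (Wp w)))] :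
    ((KS true S x).filter (fun n : ℕ => 0 < (N : ℤ) + (-1) * G.eval (n : ℤ) ∧
      gd G (-1) w (N : ZMod (Wp w)) (n : ZMod (Wp w)))).card = sievedCount G S N x w := by
  classical
  unfold sievedCount KS
  congr 1
  ext n
  rw [mem_filter, mem_filter, mem_filter]
  have h : (N : ℤ) + (-1) * G.eval (n : ℤ) = (N : ℤ) - G.eval (n : ℤ) := by ring
  have h0 : gd G (-1) w (N : ZMod (Wp w)) (n : ZMod (Wp w)) ↔ ∀ q : ℕ, q.Prime → q ≤ w → ¬ (q : ℤ) ∣ (N : ℤ) - G.eval (n : ℤ) := by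
    have h1 := gd_iff G (-1) w (N : ℤ) n
    rw [Int.cast_natCast, h] at h1
    exact h1
  rw [h0, h]
  constructor
  · rintro ⟨⟨h1, h2, h3⟩, h4, h5⟩
    exact ⟨h1, h2 rfl, h3, h4, h5⟩
  · rintro ⟨h1, h2, h3, h4, h5⟩
    exact ⟨⟨h1, fun _ => h2, h3⟩, h4, h5⟩

open Classical in
/-- Let `G ∈ ℤ[X]` have degree `d ≥ 1` and positive leading coefficient, `C ≥ 1` and `ε > 0`. For `w ≥ w₀` and
`x ≥ x₀(w)` and **every** set `S`: for all but at most `ε x ^ d` of the `N ≤ C x ^ d` the number of the primes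
`p ≤ x` in `S` with `N - G(p)` prime differs by at most `ε x / (log x) ^ 2` from `1 / (V(w) d log x)` times the
number of the primes `p ≤ x` in `S` for which `N - G(p)` is positive and has no prime factor `≤ w`. -/
theorem result (G : ℤ[X]) (hG : 1 ≤ G.natDegree) (hGl : 0 < G.leadingCoeff) (C : ℕ) (hC : 1 ≤ C) (ε : ℝ) (hε : 0 < ε) :
    ∃ w₀ : ℕ, ∀ w : ℕ, w₀ ≤ w → ∃ x₀ : ℕ, ∀ x : ℕ, x₀ ≤ x → ∀ S : Set ℕ,
      (((Icc 1 (C * x ^ G.natDegree)).filter (fun N : ℕ => ε * ((x : ℝ) / Real.log x ^ 2) <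
        |(primeCount G S N x : ℝ) - (sievedCount G S N x w : ℝ) / (V w * (G.natDegree * Real.log x))|)).card : ℝ) ≤
        ε * (x : ℝ) ^ G.natDegree := by
  obtain ⟨w0, h0⟩ := Pool.Agent.TH881.RQ.uni_count true G hG hGl (-1) (Or.inr rfl)
    (Pool.Agent.TH881.RQ.stPMq_in true G hG hGl) C hC ε hε
  refine ⟨w0, fun w hw => ?_⟩
  obtain ⟨X0, hX0⟩ := h0 w hw
  refine ⟨X0 + 3, ?_⟩
  intro x hx S
  have h1 := hX0 x (by omega) S
  refine le_trans ?_ h1
  have hxr : (3 : ℝ) ≤ x := by exact_mod_cast (by omega : 3 ≤ x)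
  have hL : 0 < Real.log (x : ℝ) := Real.log_pos (by linarith)
  have hd : (1 : ℝ) ≤ G.natDegree := by exact_mod_cast hG
  have hV : V w = Pool.Agent.H373R2.T7.Vz w := rfl
  have hV0 : 0 < V w := by rw [hV]; exact Pool.Agent.H373R2.T7.Vz_pos w
  have hsub : (Icc 1 (C * x ^ G.natDegree)).filter (fun N : ℕ => ε * ((x : ℝ) / Real.log x ^ 2) <
        |(primeCount G S N x : ℝ) - (sievedCount G S N x w : ℝ) / (V w * (G.natDegree * Real.log x))|) ⊆
      (Icc 1 (C * x ^ G.natDegree)).filter (fun N : ℕ => ε * Pool.Agent.TH881.RQ.tot true x <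
        |((Pool.Agent.TH881.RQ.KS true S x).filter (fun n : ℕ => ((N : ℤ) + (-1) * G.eval (n : ℤ)).toNat.Prime)).card * (G.natDegree * Real.log x) -
          (Pool.Agent.H373R2.T7.Vz w)⁻¹ * ((Pool.Agent.TH881.RQ.KS true S x).filter (fun n : ℕ =>
          0 < (N : ℤ) + (-1) * G.eval (n : ℤ) ∧ Pool.Agent.TH881.RQ.gd G (-1) w (N : ZMod (Pool.Agent.TH881.Wp w)) (n : ZMod (Pool.Agent.TH881.Wp w)))).card|) := by
    intro N hN
    rw [mem_filter] at hN ⊢
    refine ⟨hN.1, ?_⟩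
    rw [primeCount_eq, sievedCount_eq, ← hV]
    have h2 := hN.2
    have h3 : Pool.Agent.TH881.RQ.tot true x = (x : ℝ) / Real.log x := by
      unfold Pool.Agent.TH881.RQ.tot
      rw [if_pos rfl]
    rw [h3]
    have h4 : (primeCount G S N x : ℝ) * (G.natDegree * Real.log x) - (V w)⁻¹ * sievedCount G S N x w =
        ((primeCount G S N x : ℝ) - (sievedCount G S N x w : ℝ) / (V w * (G.natDegree * Real.log x))) * (G.natDegree * Real.log x) := by
      field_simp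
    have hdL : 0 < (G.natDegree : ℝ) * Real.log x := by positivity
    rw [h4, abs_mul, abs_of_pos hdL]
    have h5 : ε * ((x : ℝ) / Real.log x) ≤ ε * ((x : ℝ) / Real.log x ^ 2) * (G.natDegree * Real.log x) := by
      have h6 : ε * ((x : ℝ) / Real.log x ^ 2) * (G.natDegree * Real.log x) = G.natDegree * (ε * ((x : ℝ) / Real.log x)) := by
        field_simp
      rw [h6]
      apply le_mul_of_one_le_left _ hd
      positivity
    exact lt_of_le_of_lt h5 (mul_lt_mul_of_pos_right h2 hdL)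
  exact_mod_cast card_le_card hsub

end Pool.Agent.Results.MP_0bf1d2_nt.ArbitrarySetsOfPrimes
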