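import Pool.Agent.TH882.T1

/-!
Schinzel's Goldbach-type question for `F(n) = n` and several polynomials `G_j` of degree at least
two at once: for all but a proportion `κ` of the admissible vectors `(N_1, ..., N_r)`, the numbers
`N_j - G_j(p)` are all prime for a number of isolated primes `p ≤ x` of the right order of magnitude.
-/

set_option autoImplicit false

open Finset Filter Topology Polynomial

namespace Pool.Agent.Results.MP_0bf1d2_nt.HigherDegreeIsolated

/-- The only prime at distance at most `R` from `p` is `p` itself (if it is one). -/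
def Isolated (R : ℝ) (p : ℕ) : Prop := ∀ q : ℕ, q.Prime → |(q : ℝ) - p| ≤ R → q = p

/-- No prime `l` divides the product of `n` and all `N_j - G_j(n)` for every integer `n`. -/
def NoFixedDivisor {r : ℕ} (G : Fin r → ℤ[X]) (N : Fin r → ℕ) : Prop :=
  ∀ l : ℕ, l.Prime → ∃ n : ℤ, ¬ (l : ℤ) ∣ n * ∏ j, ((N j : ℤ) - (G j).eval n)

open Classical in
/-- The primes `p ≤ x` without other primes at distance at most `L * log x` for which all
`N_j - G_j(p)` are (positive) primes. -/
noncomputable def representations {r : ℕ} (G : Fin r → ℤ[X]) (L : ℝ) (N : Fin r → ℕ) (x : ℕ) :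
    Finset ℕ :=
  (Icc 1 x).filter (fun p => p.Prime ∧ Isolated (L * Real.log x) p ∧
    ∀ j, ((N j : ℤ) - (G j).eval (p : ℤ)).toNat.Prime)

open Classical in
/-- The vectors without fixed divisor, `1 ≤ N_j ≤ K x ^ (deg G_j)`, with few representations. -/
noncomputable def exceptions {r : ℕ} (G : Fin r → ℤ[X]) (L c : ℝ) (K x : ℕ) : Finset (Fin r → ℕ) :=
  (Fintype.piFinset (fun j : Fin r => Icc 1 (K * x ^ (G j).natDegree))).filter (fun N =>
    NoFixedDivisor G N ∧ ((representations G L N x).card : ℝ) < c * (x / Real.log x ^ (r + 1)))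

theorem result (r : ℕ) (G : Fin r → ℤ[X]) (hd : ∀ j, 2 ≤ (G j).natDegree)
    (hl : ∀ j, 0 < (G j).leadingCoeff) (L : ℝ) (K : ℕ) (κ : ℝ) (hκ : 0 < κ) :
    (∃ c : ℝ, 0 < c ∧ ∃ x₀ : ℕ, ∀ x : ℕ, x₀ ≤ x →
      ((exceptions G L c K x).card : ℝ) ≤ κ * ∏ j, (x : ℝ) ^ (G j).natDegree) ∧
    ∀ N : Fin r → ℕ, NoFixedDivisor G N ↔ ∀ l : ℕ, l.Prime →
      (l ≤ 1 + ∑ j, (G j).natDegree ∨ ∃ j, (l : ℤ) ∣ (G j).leadingCoeff) →
      ∃ n ∈ Ico 1 l, ∀ j, ¬ (l : ℤ) ∣ (N j : ℤ) - (G j).eval (n : ℤ) := by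
  classical
  have hprod : ∀ (N : Fin r → ℕ) (l : ℕ) (n : ℤ), l.Prime →
      (¬ (l : ℤ) ∣ n * ∏ j, ((N j : ℤ) - (G j).eval n) ↔
        ¬ (l : ℤ) ∣ n ∧ ∀ j, ¬ (l : ℤ) ∣ (N j : ℤ) - (G j).eval n) := by
    intro N l n hlp
    have hp : Prime (l : ℤ) := Nat.prime_iff_prime_int.1 hlp
    constructor
    · intro h
      exact ⟨fun hd => h (hd.mul_right _), fun j hd => h
        ((hd.trans (dvd_prod_of_mem (fun j => (N j : ℤ) - (G j).eval n) (mem_univ j))).mul_left _)⟩
    · rintro ⟨h1, h2⟩ hd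
      rcases hp.dvd_or_dvd hd with h3 | h3
      · exact h1 h3
      · obtain ⟨j, -, hj⟩ := (hp.dvd_finset_prod_iff _).1 h3
        exact h2 j hj
  constructor
  · have hΛ0 : (0 : ℝ) < 2 * max L 1 := by
      have : (1 : ℝ) ≤ max L 1 := le_max_right _ _
      linarith
    obtain ⟨M, hM, c, hc, x₀, h⟩ := Pool.Agent.TH882.KS.sys_mostG G
      (fun j => le_trans (by norm_num) (hd j)) hl (Pool.Agent.TH882.IS.IP (2 * max L 1))
      (Pool.Agent.TH882.TS.IP_most _ hΛ0) K κ hκ
    refine ⟨c, hc, max x₀ (4 * M ^ 2), fun x hx => ?_⟩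
    have hx0 : x₀ ≤ x := (le_max_left _ _).trans hx
    have hx1 : 4 * M ^ 2 ≤ x := (le_max_right _ _).trans hx
    refine le_trans ?_ (h x hx0)
    apply Nat.cast_le.2
    apply card_le_card
    intro N hN
    unfold exceptions at hN
    rw [mem_filter] at hN ⊢
    obtain ⟨hc1, hc2, hc3⟩ := hN
    refine ⟨hc1, ?_, lt_of_le_of_lt ?_ hc3⟩
    · intro l hlp
      obtain ⟨n, hn⟩ := hc2 l hlp
      rw [hprod N l n hlp] at hn
      refine ⟨n, hn.1, fun j h => hn.2 j ?_⟩
      have e1 : (N j : ℤ) + -1 * (G j).eval n = N j - (G j).eval n := by ring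
      rwa [e1] at h
    · apply Nat.cast_le.2
      apply card_le_card
      intro n hn
      unfold Pool.Agent.TH882.KS.SysG at hn
      rw [mem_filter, mem_Ico] at hn
      obtain ⟨⟨hn1, hn2⟩, hn3, hn4⟩ := hn
      obtain ⟨h5, h6⟩ := Pool.Agent.TH882.TS.iso_of L M x (by omega) hx1 _ n hn3
      have hXM : M * (x / M) ≤ x := Nat.mul_div_le x M
      have hXx : 3 * (x / M) ≤ x := (Nat.mul_le_mul_right _ hM).trans hXM
      unfold representations
      rw [mem_filter, mem_Icc]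
      exact ⟨⟨h5.pos, by omega⟩, h5, h6, hn4⟩
  · intro N
    constructor
    · intro h l hlp _
      obtain ⟨n, hn⟩ := h l hlp
      rw [hprod N l n hlp] at hn
      have hl0 : (l : ℤ) ≠ 0 := by
        have := hlp.pos
        omega
      have hl1 : (0 : ℤ) < l := by
        have := hlp.pos
        omega
      have h1 := Int.emod_nonneg n hl0
      have h2 := Int.emod_lt_of_pos n hl1
      have h3 : ((n % (l : ℤ)).toNat : ℤ) = n % (l : ℤ) := Int.toNat_of_nonneg h1
      have h4 : (l : ℤ) ∣ n - n % (l : ℤ) := Int.dvd_self_sub_emod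
      refine ⟨(n % (l : ℤ)).toNat, ?_, ?_⟩
      · rw [mem_Ico]
        have h6 : n % (l : ℤ) ≠ 0 := fun h0 => hn.1 (Int.dvd_of_emod_eq_zero h0)
        omega
      · intro j hdv
        apply hn.2 j
        rw [h3] at hdv
        have h7 : (l : ℤ) ∣ (G j).eval n - (G j).eval (n % (l : ℤ)) :=
          h4.trans ((G j).sub_dvd_eval_sub _ _)
        have h8 : (N j : ℤ) - (G j).eval n = ((N j : ℤ) - (G j).eval (n % (l : ℤ))) -
          ((G j).eval n - (G j).eval (n % (l : ℤ))) := by ring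
        rw [h8]
        exact dvd_sub hdv h7
    · intro h l hlp
      by_cases h1 : l ≤ 1 + ∑ j, (G j).natDegree ∨ ∃ j, (l : ℤ) ∣ (G j).leadingCoeff
      · obtain ⟨n, hn1, hn2⟩ := h l hlp h1
        rw [mem_Ico] at hn1
        refine ⟨(n : ℤ), (hprod N l n hlp).2 ⟨?_, hn2⟩⟩
        intro hdv
        have h8 : l ∣ n := by exact_mod_cast hdv
        exact absurd (Nat.le_of_dvd (by omega) h8) (by omega)
      · push Not at h1
        obtain ⟨n, hn1, hn2⟩ := Pool.Agent.TH882.TS.wit (fun _ : Fin r => (-1 : ℤ))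
          (fun _ => Or.inr rfl) G (fun j => le_trans (by norm_num) (hd j)) l hlp h1.2 h1.1 N
        refine ⟨n, (hprod N l n hlp).2 ⟨hn1, fun j hdv => hn2 j ?_⟩⟩
        have e1 : (N j : ℤ) + -1 * (G j).eval n = N j - (G j).eval n := by ring
        rwa [e1]

end Pool.Agent.Results.MP_0bf1d2_nt.HigherDegreeIsolated
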