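import Mathlib
import Pool.Agent.TH415.SI.PolyP

/-!
Schinzel's Goldbach-type hypothesis with `F_1 = x` and several polynomials `G_1, ..., G_r` at a
common prime argument: the order of magnitude of the number of representations for a positive
proportion of the vectors `(N_1, ..., N_r)` in boxes with short sides, the argument being taken from
an arbitrary dense set of the primes up to a bound which may be as small as a constant times
`P log P`, `P = log N_1 ⋯ log N_r`.
-/

set_option autoImplicit false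

open Finset Polynomial

namespace Pool.Agent.Results.MP_0bf1d2_nt.ShortIntervalsDensePrimes

/-- The number of `p ∈ T` for which all `N_j - G_j(p)` are (positive) primes. -/
def count {r : ℕ} (G : Fin r → ℤ[X]) (T : Finset ℕ) (N : Fin r → ℕ) : ℕ :=
  (T.filter (fun p : ℕ => ∀ j, ((N j : ℤ) - (G j).eval (p : ℤ)).toNat.Prime)).card

/-- The primes up to `x`. -/
def primesUpTo (x : ℕ) : Finset ℕ := (Icc 1 x).filter Nat.Prime

open Classical in
/-- **Schinzel's Goldbach-type hypothesis in short intervals, with arguments from a dense set of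
primes.** There is an absolute constant `δ > 0` such that the following holds for all `r ≥ 1`, all
nonconstant integer polynomials `G_1, ..., G_r` and all `c, ρ > 0`, with constants `κ > 0` and `X₀`
depending on these only. Let `X_j ≥ X₀` and `X_j ^ (1 - δ) ≤ H_j ≤ X_j` (`1 ≤ j ≤ r`) and let `T` be
a set of primes `≤ x`, where `x / log x ≥ c log X_1 ⋯ log X_r`, with `|T| ≥ ρ x / log x` and with
`2 |G_j(p)| ≤ X_j` for `p ∈ T`. Then for at least `κ H_1 ⋯ H_r` of the vectors `(N_1, ..., N_r)`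
with `X_j < N_j ≤ X_j + H_j` the number of `p ∈ T` for which all `N_j - G_j(p)` are prime lies
between `κ` and `κ⁻¹` times `|T| / (log X_1 ⋯ log X_r)`. -/
theorem result : ∃ δ : ℝ, 0 < δ ∧ δ < 1 ∧ ∀ r : ℕ, 1 ≤ r → ∀ G : Fin r → ℤ[X],
    (∀ j, 1 ≤ (G j).natDegree) → ∀ c ρ : ℝ, 0 < c → 0 < ρ →
    ∃ κ : ℝ, 0 < κ ∧ ∃ X₀ : ℕ, 4 ≤ X₀ ∧ ∀ X H : Fin r → ℕ, (∀ j, X₀ ≤ X j) →
    (∀ j, (X j : ℝ) ^ (1 - δ) ≤ H j) → (∀ j, H j ≤ X j) →
    ∀ x : ℕ, c * ∏ j, Real.log (X j) ≤ x / Real.log x →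
    ∀ T ⊆ primesUpTo x, (∀ j, ∀ p ∈ T, 2 * |(G j).eval (p : ℤ)| ≤ X j) →
      ρ * (x / Real.log x) ≤ (T.card : ℝ) →
    κ * ∏ j, (H j : ℝ) ≤
      (((Fintype.piFinset (fun j : Fin r => Ioc (X j) (X j + H j))).filter (fun N =>
        κ * (T.card / ∏ j, Real.log (X j)) ≤ (count G T N : ℝ) ∧
        (count G T N : ℝ) ≤ κ⁻¹ * (T.card / ∏ j, Real.log (X j)))).card : ℝ) := by
  obtain ⟨δ, hδ, hδ1, h⟩ := Pool.Agent.TH415.SI.polyP
  refine ⟨δ, hδ, hδ1, fun r hr G hG c ρ hc hρ => ?_⟩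
  obtain ⟨κ, hκ, X₀, hX₀, h2⟩ := h r hr (fun j => -(G j)) (fun j => by
    rw [natDegree_neg]
    exact hG j) c ρ hc hρ
  refine ⟨κ, hκ, X₀, hX₀, fun X H hX hXH hHX x hcx T hT hval hTc => ?_⟩
  refine (h2 X H hX hXH hHX x hcx T hT ?_ hTc).trans ?_
  · intro j t ht
    have e1 : (-(G j)).eval (t : ℤ) = -((G j).eval (t : ℤ)) := eval_neg ..
    simp only [e1, abs_neg]
    exact hval j t ht
  · rw [Nat.cast_le]
    apply card_le_card
    intro N hN
    rw [mem_filter] at hN ⊢
    have e : Pool.Agent.W218.PF.primeS (fun j t => (-(G j)).eval (t : ℤ)) N T = count G T N := by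
      unfold Pool.Agent.W218.PF.primeS count
      congr 1
      apply filter_congr
      intro p _
      apply forall_congr'
      intro j
      have e1 : (-(G j)).eval (p : ℤ) = -((G j).eval (p : ℤ)) := eval_neg ..
      change Nat.Prime ((-(G j)).eval (p : ℤ) + (N j : ℤ)).toNat ↔ _
      rw [e1, neg_add_eq_sub]
    rw [e] at hN
    refine ⟨hN.1, hN.2.1, ?_⟩
    rw [← div_eq_inv_mul, le_div_iff₀ hκ, mul_comm]
    exact hN.2.2

end Pool.Agent.Results.MP_0bf1d2_nt.ShortIntervalsDensePrimes
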