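import Pool.Agent.TH882.FinG2

/-!
Schinzel's Goldbach-type hypothesis, in the form of a lower bound correct up to a power of the
logarithm, for every polynomial `G`, for almost all `N` and with bounded prime tuples as arguments.
-/

set_option autoImplicit false

open Finset Filter Topology Polynomial

namespace Pool.Agent.Results.MP_0bf1d2_nt.TupleArguments

/-- `X(N)`: the number of positive integers `n` with `N - G(n) > 0`. -/
noncomputable def X0 (G : ℤ[X]) (N : ℕ) : ℕ := {n : ℕ | 1 ≤ n ∧ 0 < (N : ℤ) - G.eval (n : ℤ)}.ncard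

/-- The polynomials `F_1, ..., F_(m+1)`: the polynomials `x` and `x + h` (`h ∈ H`). -/
noncomputable def linearForms (H : Finset ℤ) : Finset ℤ[X] :=
  (insert 0 H).image (fun h => (X : ℤ[X]) + C h)

/-- `Q_1(N)` for the polynomials `x`, `x + h` (`h ∈ H`) and `N - G`: the number of positive integers
`n` for which `N - G(n)` and all `F(n)`, `F = x + h`, `h ∈ {0} ∪ H`, are positive primes; only those
`n` are counted for which all `n + h + a`, `h ∈ {0} ∪ H`, `a ∈ S`, are positive with at most `r`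
prime factors (with multiplicity). -/
noncomputable def Q1 (G : ℤ[X]) (N : ℕ) (H S : Finset ℤ) (r : ℕ) : ℕ :=
  {n : ℕ | 1 ≤ n ∧ ((N : ℤ) - G.eval (n : ℤ)).toNat.Prime ∧
    (∀ F ∈ linearForms H, (F.eval (n : ℤ)).toNat.Prime) ∧
    ∀ h ∈ insert 0 H, ∀ a ∈ S, 0 < (n : ℤ) + h + a ∧
      ArithmeticFunction.cardFactors ((n : ℤ) + h + a).toNat ≤ r}.ncard

/-- The polynomial `x (N - G(x)) ∏ (x + a)`, the product over `a ∈ S`, has no fixed prime divisor. -/
def LocallyPossible (G : ℤ[X]) (S : Finset ℤ) (N : ℕ) : Prop := ∀ l : ℕ, l.Prime → ∃ n : ℤ,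
  ¬ (l : ℤ) ∣ n * (N - G.eval n) * ∏ a ∈ S, (n + a)

/-- The locally possible `N < M` such that for no set `H` of `m` nonzero integers of absolute value
at most `C` the inequality `Q_1(N) ≥ X(N) / (log X(N)) ^ D` holds. -/
def exceptions (G : ℤ[X]) (S : Finset ℤ) (m r C D M : ℕ) : Set ℕ :=
  {N : ℕ | N < M ∧ LocallyPossible G S N ∧
    ¬ ∃ H : Finset ℤ, H.card = m ∧ (∀ h ∈ H, h ≠ 0 ∧ |h| ≤ C) ∧
      (X0 G N : ℝ) / Real.log (X0 G N) ^ D ≤ (Q1 G N H S r : ℝ)}

open Pool.Agent.TH882.PG in
lemma loc_iff (G : ℤ[X]) (S : Finset ℤ) (N : ℕ) (h : LocallyPossible G S N) :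
    LocP G (-1) S N := by
  intro l hl
  obtain ⟨n, hn⟩ := h l hl
  refine ⟨n, fun h1 => hn ?_, fun h1 => hn ?_, fun a ha h1 => hn ?_⟩
  · exact (h1.mul_right _).mul_right _
  · apply Dvd.dvd.mul_right
    apply Dvd.dvd.mul_left
    have : (N : ℤ) - G.eval n = (N : ℤ) + -1 * G.eval n := by ring
    rwa [this]
  · exact (h1.trans (Finset.dvd_prod_of_mem (fun a => n + a) ha)).mul_left _

open Pool.Agent.TH882.PG in
lemma Q1_eq (G : ℤ[X]) (S : Finset ℤ) (r : ℕ) (H : Finset ℤ) (N : ℕ) :
    Pool.Agent.TH882.PG.Q1 G S r H N = Q1 G N H S r := by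
  unfold Pool.Agent.TH882.PG.Q1 Q1
  congr 1
  ext n
  rw [Set.mem_setOf_eq, Set.mem_setOf_eq]
  refine and_congr_right fun _ => and_congr_right fun _ => ?_
  constructor
  · intro h3
    refine ⟨?_, fun h hh => (h3 h hh).2.2⟩
    intro F hF
    unfold linearForms at hF
    rw [mem_image] at hF
    obtain ⟨h, hh, rfl⟩ := hF
    rw [eval_add, eval_C, eval_X]
    exact (h3 h hh).2.1
  · rintro ⟨h1, h2⟩ h hh
    have e1 := h1 ((X : ℤ[X]) + C h) (by
      unfold linearForms
      exact mem_image_of_mem _ hh)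
    rw [eval_add, eval_C, eval_X] at e1
    refine ⟨?_, e1, h2 h hh⟩
    have := e1.pos
    omega

/-- **Schinzel's Goldbach-type hypothesis for almost all `N`, with bounded tuples of primes as
arguments.** Let `G` be a polynomial of degree at least `1` with integer coefficients and positive
leading coefficient, let `S` be a finite set of integers and let `m` be given. There are `r`, `C`,
`D` such that for all `N < M` for which `x (N - G(x)) ∏ (x + a)` has no fixed prime divisor, with at
most `o(M)` exceptions as `M → ∞`, there is a set `H` of `m` nonzero integers of absolute value at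
most `C` such that `N - G(n)`, `n` and all `n + h` (`h ∈ H`) are prime for at least
`X(N) / (log X(N)) ^ D` positive integers `n` for which moreover all `n + h + a`, `h ∈ {0} ∪ H`,
`a ∈ S`, have at most `r` prime factors. -/
theorem result (G : ℤ[X]) (hd : 1 ≤ G.natDegree) (hl : 0 < G.leadingCoeff) (S : Finset ℤ) (m : ℕ) :
    ∃ r C D : ℕ, Tendsto (fun M : ℕ => ((exceptions G S m r C D M).ncard : ℝ) / M) atTop (𝓝 0) := by
  classical
  obtain ⟨r, C, D, h⟩ := Pool.Agent.TH882.PG.finMinus G hd hl S m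
  refine ⟨r, C, D, ?_⟩
  refine squeeze_zero (fun x => by positivity) (fun M => ?_) h
  apply div_le_div_of_nonneg_right _ (by positivity)
  apply Nat.cast_le.2
  rw [← Set.ncard_coe_finset]
  apply Set.ncard_le_ncard _ (finite_toSet _)
  intro N hN
  unfold exceptions at hN
  rw [Set.mem_setOf_eq] at hN
  obtain ⟨h1, h2, h3⟩ := hN
  unfold Pool.Agent.TH882.PG.ExM
  rw [mem_coe, mem_filter, mem_range]
  refine ⟨h1, loc_iff G S N h2, ?_⟩
  rintro ⟨H, hH1, hH2, hH3⟩
  apply h3
  refine ⟨H, hH1, hH2, ?_⟩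
  rw [Q1_eq] at hH3
  exact hH3

end Pool.Agent.Results.MP_0bf1d2_nt.TupleArguments
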